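import Pool.Agent.Run7.h608.TK.Iface

/-!
# Piece NMON of project TK (helper657)
-/

set_option autoImplicit false

open MeasureTheory Set Filter Topology
open scoped ENNReal
open R109.GT

namespace Run7.h657.TK

open Run7.h608.TK

theorem div_mem_ivs (n t : ℕ) (i i' : ℤ) (h : i' / 2 ^ t = i) : i ∈ ivs n ↔ i' ∈ ivs (n + t) := by
  unfold ivs
  rw [Finset.mem_Ico, Finset.mem_Ico, ← h]
  have hp : (0:ℤ) < 2 ^ t := by positivity
  rw [pow_add, Int.le_ediv_iff_mul_le hp, Int.ediv_lt_iff_lt_mul hp, zero_mul]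

theorem t_NMON (hDSC : S_DSC) : S_NMON := by
  intro w hw n m s x hx hs hS hd
  obtain ⟨t, rfl⟩ : ∃ t, s = n + t := ⟨s - n, by omega⟩
  have hmt : m ≤ t := by omega
  set i := ⌊(2:ℝ) ^ (n + t) * x⌋ with hi
  set y := (2:ℝ) ^ n * tak w x with hy
  have hS0 : S w (n + t) x = 0 := hS
  have h1 := tak_eq w hw (n + t) x
  rw [hS0] at h1
  simp only [Int.cast_zero, zero_mul, add_zero] at h1
  rw [← hi] at h1
  have hb := bound (fun k => w (n + t + k)) (fun k j => hw _ _) ((2:ℝ) ^ (n + t) * x)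
  rw [abs_le] at hb
  have h2 : (2:ℝ) ^ t * y = (val w (n + t) i : ℝ) + tak (fun k => w (n + t + k)) ((2:ℝ) ^ (n + t) * x) := by
    rw [hy, h1]
    have : (2:ℝ) ^ (n + t) = 2 ^ n * 2 ^ t := pow_add _ _ _
    rw [this]
    field_simp
  have hpt : (0:ℝ) < 2 ^ t := by positivity
  have hpm : (0:ℝ) < 2 ^ m := by positivity
  have hle : (2:ℝ) / 2 ^ t ≤ 2 / 2 ^ m := by
    apply div_le_div_of_nonneg_left (by norm_num) hpm
    exact pow_le_pow_right₀ (by norm_num) hmt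
  -- distances
  have h3 : (2:ℝ) / 2 ^ t < y - ⌊y⌋ := by
    have a := round_le y ⌊y⌋
    rw [abs_of_nonneg (a := y - ⌊y⌋) (by linarith [Int.floor_le y])] at a
    linarith
  have h4 : (2:ℝ) / 2 ^ t < ⌊y⌋ + 1 - y := by
    have a := round_le y (⌊y⌋ + 1)
    rw [abs_of_nonpos (a := y - ((⌊y⌋ + 1 : ℤ) : ℝ)) (by push_cast; linarith [Int.lt_floor_add_one y])] at a
    push_cast at a
    linarith
  rw [div_lt_iff₀ hpt] at h3 h4
  have h5 : ((⌊y⌋ * 2 ^ t + 1 : ℤ) : ℝ) < (val w (n + t) i : ℝ) := by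
    push_cast
    nlinarith
  have h6 : (val w (n + t) i : ℝ) < (((⌊y⌋ + 1) * 2 ^ t - 1 : ℤ) : ℝ) := by
    push_cast
    nlinarith
  have h5' := Int.cast_lt.mp h5
  have h6' := Int.cast_lt.mp h6
  have hc1 : ⌊y⌋ * 2 ^ t ≤ cell w (n + t) i := by
    unfold cell
    split_ifs <;> omega
  have hc2 : cell w (n + t) i < (⌊y⌋ + 1) * 2 ^ t := by
    unfold cell
    split_ifs <;> omega
  have hp : (0:ℤ) < 2 ^ t := by positivity
  have hq : cell w (n + t) i / 2 ^ t = ⌊y⌋ := by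
    apply le_antisymm
    · have := (Int.ediv_lt_iff_lt_mul hp).mpr hc2
      omega
    · exact (Int.le_ediv_iff_mul_le hp).mpr hc1
  unfold Nc
  apply Finset.card_le_card_of_surjOn (fun j : ℤ => j / 2 ^ t)
  intro j hj
  rw [Finset.mem_coe, Finset.mem_filter] at hj
  obtain ⟨i', hi', hcr⟩ := hDSC w hw n t j ⌊y⌋ (cell w (n + t) i) hj.2 hq
  refine ⟨i', ?_, hi'⟩
  rw [Finset.mem_coe, Finset.mem_filter]
  exact ⟨(div_mem_ivs n t j i' hi').mp hj.1, hcr⟩

end Run7.h657.TK
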